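import Mathlib

/-!
Groups with a large metabelian quotient: definitions and module statements.
-/

set_option autoImplicit false

namespace Pool.Agent.Lib.MP_688fd0_co.MET

universe u

/-- A permutation of `G` that moves every element along `S` and all of whose cycles have length at least `L`. -/
def LongPerm {G : Type*} [Group G] (S : Set G) (L : ℕ) : Prop :=
  ∃ σ : Equiv.Perm G, (∀ x, x⁻¹ * σ x ∈ S) ∧ ∀ (x : G) (m : ℕ), 0 < m → (σ ^ m) x = x → L ≤ m

/-- SIZE: a finite group with abelian commutator subgroup, generated by at most `d` elements of exponent `r` whose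
commutators have exponent `m`, has bounded order. -/
def SizeStatement : Prop := ∀ d r m : ℕ, 0 < r → 0 < m → ∃ N : ℕ, ∀ (G : Type u) [Group G] [Finite G] (A : Set G),
  (∀ x ∈ commutator G, ∀ y ∈ commutator G, x * y = y * x) → Subgroup.closure A = ⊤ → Nat.card A ≤ d →
  (∀ a ∈ A, a ^ r = 1) → (∀ a ∈ A, ∀ b ∈ A, (a * b * a⁻¹ * b⁻¹) ^ m = 1) → Nat.card G ≤ N

/-- TWO: two generators whose commutator has large order. -/
def TwoStatement : Prop := ∀ L r : ℕ, 0 < r → ∃ M : ℕ, ∀ (G : Type u) [Group G] [Finite G] (a b : G),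
  (∀ x ∈ commutator G, ∀ y ∈ commutator G, x * y = y * x) → Subgroup.closure {a, b} = ⊤ →
  a ^ r = 1 → b ^ r = 1 → M ≤ orderOf (a * b * a⁻¹ * b⁻¹) → LongPerm {a, a⁻¹, b, b⁻¹} L

end Pool.Agent.Lib.MP_688fd0_co.MET
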