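import Pool.Agent.Lib.MP_688fd0_co.MET.Base
import Pool.Agent.Lib.MP_688fd0_co.ASY.H18.Seq

/-!
Groups with a large metabelian quotient: the family of cycles of a permutation.
-/

set_option autoImplicit false

namespace Pool.Agent.Lib.MP_688fd0_co.MET

open Pool.Agent.Lib.MP_688fd0_co.LP (Cyc)
open Pool.Agent.Lib.MP_688fd0_co.LIN (PD)
open Pool.Agent.Lib.MP_688fd0_co.LPV (cayS)

universe u

/-- FAM: the cycles of a permutation as a family of lists. -/
def FamStatement : Prop := ∀ (Γ : Type u) [Group Γ] [Fintype Γ] (A : Set Γ), (∀ x ∈ A, x⁻¹ ∈ A) → ∀ L : ℕ, 3 ≤ L →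
  LongPerm A L → ∃ F : Finset (List Γ), (∀ c ∈ F, Cyc (cayS A) c ∧ L ≤ c.length) ∧ PD F ∧
    Fintype.card Γ = ∑ c ∈ F, c.length

end Pool.Agent.Lib.MP_688fd0_co.MET
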